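import Mathlib
import Pool.Agent.MP_d3ce6f_co.Defs
import Pool.Agent.MP_d3ce6f_co.Main

set_option autoImplicit false

open Pool.Agent.MP_d3ce6f_co

namespace Pool.Agent.Results.MP_d3ce6f_co.ContinuumMany

/-- There are continuum many pairwise topologically inequivalent homogeneous tilings of the
plane of type `[3.4.3.4.4]`. -/
theorem result : ∃ F : Set (Set (Set (ℝ × ℝ))), Cardinal.mk F = Cardinal.continuum ∧
    (∀ 𝒯 ∈ F, IsHomogeneous34344 𝒯) ∧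
    ∀ 𝒯 ∈ F, ∀ 𝒯' ∈ F, 𝒯 ≠ 𝒯' → ¬ TopEquiv 𝒯 𝒯' :=
  main

end Pool.Agent.Results.MP_d3ce6f_co.ContinuumMany
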